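import Pool.Agent.Y314.CT.Stm

set_option autoImplicit false

/-!
# Project CT: the statements AFF and COM
-/

namespace Pool.Agent.Y899.CT

open Pool.Agent.Y314.CT

theorem real_aux (x A B : ℝ) (h : ∀ m : ℕ, (m : ℝ) ^ 2 * x ≤ A + B * m) : x ≤ 0 := by
  by_contra hx
  push Not at hx
  obtain ⟨m, hm⟩ := exists_nat_gt ((|A| + |B|) / x)
  have h1 : |A| + |B| < m * x := by rwa [div_lt_iff₀ hx] at hm
  have hm0 : (0 : ℝ) < m := by
    by_contra hc
    push Not at hc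
    have : (m : ℝ) * x ≤ 0 := mul_nonpos_of_nonpos_of_nonneg hc hx.le
    have := abs_nonneg A
    have := abs_nonneg B
    linarith
  have hm1 : (1 : ℝ) ≤ m := by
    have : 0 < m := by exact_mod_cast hm0
    exact_mod_cast this
  have h2 := h m
  have h3 : A ≤ |A| := le_abs_self A
  have h4 : B * m ≤ |B| * m := mul_le_mul_of_nonneg_right (le_abs_self B) hm0.le
  have h5 : (m : ℝ) ^ 2 * x = m * (m * x) := by ring
  have h6 : (m : ℝ) * (|A| + |B|) < m * (m * x) := mul_lt_mul_of_pos_left h1 hm0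
  have h7 : |A| ≤ m * |A| := le_mul_of_one_le_left (abs_nonneg A) hm1
  nlinarith

section aff

variable {t s : ℝ} {Φ : NT t → NT s} {K : ℝ}

theorem step_const (h2 : ∀ (h : NT t) (i : Fin 4) (b : Bool),
        (Φ (h * ge t i b 2)).v + (Φ h).v = (2 : ℝ) • (Φ (h * ge t i b 1)).v)
    (h : NT t) (i : Fin 4) (b : Bool) (r : ℤ) :
    (Φ (h * ge t i b ((r : ℝ) + 1))).v - (Φ (h * ge t i b (r : ℝ))).v
      = (Φ (h * ge t i b 1)).v - (Φ h).v := by
  have key : ∀ x : ℝ, (Φ (h * ge t i b (x + 1 + 1))).v - (Φ (h * ge t i b (x + 1))).v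
      = (Φ (h * ge t i b (x + 1))).v - (Φ (h * ge t i b x)).v := by
    intro x
    have h3 := h2 (h * ge t i b x) i b
    rw [mul_assoc, mul_assoc, ge_mul, ge_mul] at h3
    have h4 : x + 1 + 1 = x + 2 := by ring
    rw [h4, sub_eq_sub_iff_add_eq_add, h3, two_smul]
  induction r using Int.induction_on with
  | zero => simp
  | succ k ih =>
    have h5 := key (k : ℝ)
    push_cast
    push_cast at ih
    rw [h5, ih]
  | pred k ih =>
    have h5 := key (-(k : ℝ) - 1)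
    push_cast
    push_cast at ih
    have h6 : -(k : ℝ) - 1 + 1 = -(k : ℝ) := by ring
    rw [h6] at h5 ⊢
    rw [← h5, ih]

theorem step_lin (h2 : ∀ (h : NT t) (i : Fin 4) (b : Bool),
        (Φ (h * ge t i b 2)).v + (Φ h).v = (2 : ℝ) • (Φ (h * ge t i b 1)).v)
    (h : NT t) (i : Fin 4) (b : Bool) (r : ℤ) :
    (Φ (h * ge t i b (r : ℝ))).v = (Φ h).v + (r : ℝ) • ((Φ (h * ge t i b 1)).v - (Φ h).v) := by
  induction r using Int.induction_on with
  | zero => simp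
  | succ k ih =>
    have h5 := step_const h2 h i b (k : ℤ)
    push_cast at h5 ih ⊢
    rw [sub_eq_iff_eq_add] at h5
    rw [h5, ih, add_smul, one_smul]
    abel
  | pred k ih =>
    have h5 := step_const h2 h i b (-(k : ℤ) - 1)
    push_cast at h5 ih ⊢
    have h6 : -(k : ℝ) - 1 + 1 = -(k : ℝ) := by ring
    rw [h6] at h5
    rw [sub_eq_iff_eq_add] at h5
    rw [ih] at h5
    have h7 : (Φ (h * ge t i b (-(k : ℝ) - 1))).v
        = (Φ h).v + -(k : ℝ) • ((Φ (h * ge t i b 1)).v - (Φ h).v)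
          - ((Φ (h * ge t i b 1)).v - (Φ h).v) := by
      rw [h5]; abel
    rw [h7, sub_smul, one_smul]
    abel

theorem conj_ge (u : NT t) (i : Fin 4) (b : Bool) (x : ℝ) :
    ge t i b (-x) * u * ge t i b x = ⟨u.v, u.z + x • om t u.v (ev i b)⟩ := by
  refine ext' ?_ ?_
  · simp
  · simp only [mul_z, mul_v, ge_v, ge_z, om_add_left, om_smul_left, om_smul_right, om_self,
      smul_zero, zero_add, add_zero, neg_smul, smul_neg, om_neg_left]
    rw [om_swap (ev i b) u.v]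
    ext <;> simp <;> ring

theorem dd_ge_le (g h : NT t) (i : Fin 4) (b : Bool) : ∃ A B : ℝ, ∀ m : ℕ,
    dd (g * ge t i b ((m : ℝ) ^ 2)) (h * ge t i b ((m : ℝ) ^ 2)) ≤ A + B * m := by
  set u := g⁻¹ * h with hu
  refine ⟨‖u.v‖ + ‖u.z‖ + 1, ‖om t u.v (ev i b)‖ + 1, fun m => ?_⟩
  have h1 : (g * ge t i b ((m : ℝ) ^ 2))⁻¹ * (h * ge t i b ((m : ℝ) ^ 2))
      = ⟨u.v, u.z + ((m : ℝ) ^ 2) • om t u.v (ev i b)⟩ := by
    rw [← conj_ge u i b, ← ge_inv, hu]
    group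
  unfold dd
  rw [h1]
  have hm : (0 : ℝ) ≤ m := Nat.cast_nonneg m
  have hn1 := norm_nonneg u.v
  have hn2 := norm_nonneg u.z
  have hn3 := norm_nonneg (om t u.v (ev i b))
  refine nn_le (by positivity) ?_ ?_
  · show ‖u.v‖ ≤ _
    nlinarith
  · show ‖u.z + ((m : ℝ) ^ 2) • om t u.v (ev i b)‖ ≤ _
    have h2 : ‖u.z + ((m : ℝ) ^ 2) • om t u.v (ev i b)‖
        ≤ ‖u.z‖ + (m : ℝ) ^ 2 * ‖om t u.v (ev i b)‖ := by
      refine (norm_add_le _ _).trans (add_le_add le_rfl ?_)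
      rw [norm_smul, Real.norm_of_nonneg (by positivity)]
    set a := ‖u.v‖
    set c := ‖u.z‖
    set d := ‖om t u.v (ev i b)‖
    have h3 : c + (m : ℝ) ^ 2 * d ≤ (a + c + 1 + (d + 1) * m) ^ 2 := by
      have e1 : c ≤ (a + c + 1) ^ 2 := by nlinarith
      have e2 : (m : ℝ) ^ 2 * d ≤ ((d + 1) * m) ^ 2 := by
        have : d ≤ (d + 1) ^ 2 := by nlinarith
        calc (m : ℝ) ^ 2 * d ≤ (m : ℝ) ^ 2 * (d + 1) ^ 2 :=
              mul_le_mul_of_nonneg_left this (by positivity)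
          _ = _ := by ring
      have e3 : 0 ≤ (a + c + 1) * ((d + 1) * m) := by positivity
      nlinarith
    have h4 : 0 ≤ (a + c + 1 + (d + 1) * m) ^ 2 := by positivity
    have h5 := abs_nonneg t
    have h6 : 0 ≤ |t| * (a + c + 1 + (d + 1) * m) ^ 2 := by positivity
    nlinarith

theorem sg_const (hT : TL t s Φ K) (h2 : ∀ (h : NT t) (i : Fin 4) (b : Bool),
        (Φ (h * ge t i b 2)).v + (Φ h).v = (2 : ℝ) • (Φ (h * ge t i b 1)).v)
    (g h : NT t) (i : Fin 4) (b : Bool) :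
    (Φ (g * ge t i b 1)).v - (Φ g).v = (Φ (h * ge t i b 1)).v - (Φ h).v := by
  obtain ⟨A, B, hAB⟩ := dd_ge_le g h i b
  set x := ((Φ (g * ge t i b 1)).v - (Φ g).v) - ((Φ (h * ge t i b 1)).v - (Φ h).v) with hx
  have hK := hT.pos
  have key : ‖x‖ ≤ 0 := by
    refine real_aux _ (‖(Φ g).v - (Φ h).v‖ + K * A) (K * B) (fun m => ?_)
    have e1 := step_lin h2 g i b ((m : ℤ) ^ 2)
    have e2 := step_lin h2 h i b ((m : ℤ) ^ 2)
    push_cast at e1 e2
    have e3 : ((m : ℝ) ^ 2) • x = ((Φ (g * ge t i b ((m : ℝ) ^ 2))).v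
        - (Φ (h * ge t i b ((m : ℝ) ^ 2))).v) - ((Φ g).v - (Φ h).v) := by
      rw [e1, e2, hx, smul_sub]
      abel
    have e4 : (m : ℝ) ^ 2 * ‖x‖ = ‖((m : ℝ) ^ 2) • x‖ := by
      rw [norm_smul, Real.norm_of_nonneg (by positivity)]
    rw [e4, e3]
    have e5 := norm_sub_le ((Φ (g * ge t i b ((m : ℝ) ^ 2))).v
        - (Φ (h * ge t i b ((m : ℝ) ^ 2))).v) ((Φ g).v - (Φ h).v)
    have e6 := norm_sub_v_le (Φ (g * ge t i b ((m : ℝ) ^ 2))) (Φ (h * ge t i b ((m : ℝ) ^ 2)))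
    have e7 := hT.up (g * ge t i b ((m : ℝ) ^ 2)) (h * ge t i b ((m : ℝ) ^ 2))
    have e8 : K * dd (g * ge t i b ((m : ℝ) ^ 2)) (h * ge t i b ((m : ℝ) ^ 2))
        ≤ K * (A + B * m) := mul_le_mul_of_nonneg_left (hAB m) hK.le
    nlinarith
  have h0 : x = 0 := norm_le_zero_iff.1 key
  rwa [hx, sub_eq_zero] at h0

end aff

theorem t_AFF : S_AFF := by
  intro t s Φ K hT h2
  refine ⟨fun i b => (Φ ((1 : NT t) * ge t i b 1)).v - (Φ 1).v, fun h i b r => ?_⟩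
  rw [step_lin h2 h i b r, sg_const hT h2 h 1 i b]

section com

variable {t s : ℝ} {Φ : NT t → NT s} {K : ℝ}

theorem img_nat (hT : TL t s Φ K) (σ : Fin 4 → Bool → HV)
    (hσ : ∀ (h : NT t) (i : Fin 4) (b : Bool) (r : ℤ),
      (Φ (h * ge t i b (r : ℝ))).v = (Φ h).v + (r : ℝ) • σ i b)
    (i : Fin 4) (b : Bool) (r : ℕ) (h : NT t) :
    ∃ ζ : ZV, Φ (h * ge t i b (r : ℝ)) = Φ h * ⟨(r : ℝ) • σ i b, ζ⟩ ∧
      ‖ζ‖ ≤ (r : ℝ) * ((3 + |s|) * K ^ 2) := by
  induction r with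
  | zero =>
    refine ⟨0, ?_, by simp⟩
    have h1 : (⟨((0 : ℕ) : ℝ) • σ i b, 0⟩ : NT s) = 1 := ext' (by simp) rfl
    rw [h1, mul_one]
    simp
  | succ r ih =>
    obtain ⟨ζ, h1, h3⟩ := ih
    set g := h * ge t i b (r : ℝ) with hg
    set w := (Φ g)⁻¹ * Φ (g * ge t i b 1) with hw
    have hwv : w.v = σ i b := by
      rw [hw, inv_mul_v]
      have := hσ g i b 1
      push_cast at this
      rw [this]
      simp
    have hnw : nn w ≤ K := by
      have e1 := hT.up g (g * ge t i b 1)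
      have e2 : dd g (g * ge t i b 1) = 1 := by
        unfold dd
        rw [inv_mul_cancel_left, nn_ge]
        simp
      rw [e2, mul_one] at e1
      exact e1
    have hwz : ‖w.z‖ ≤ (3 + |s|) * K ^ 2 := by
      refine (norm_z_le w).trans ?_
      exact mul_le_mul_of_nonneg_left (pow_le_pow_left₀ (nn_nonneg _) hnw 2) (bt_pos s).le
    refine ⟨ζ + w.z, ?_, ?_⟩
    · have e1 : h * ge t i b ((r + 1 : ℕ) : ℝ) = g * ge t i b 1 := by
        rw [hg, mul_assoc, ge_mul]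
        push_cast
        rfl
      have e2 : Φ (g * ge t i b 1) = Φ g * w := by
        rw [hw, mul_inv_cancel_left]
      rw [e1, e2, h1, mul_assoc]
      congr 1
      refine ext' ?_ ?_
      · simp only [mul_v, hwv]
        push_cast
        rw [add_smul, one_smul]
      · simp only [mul_z, hwv, om_smul_left, om_self, smul_zero, add_zero]
    · refine (norm_add_le _ _).trans ?_
      push_cast
      linarith

theorem img_int (hT : TL t s Φ K) (σ : Fin 4 → Bool → HV)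
    (hσ : ∀ (h : NT t) (i : Fin 4) (b : Bool) (r : ℤ),
      (Φ (h * ge t i b (r : ℝ))).v = (Φ h).v + (r : ℝ) • σ i b)
    (i : Fin 4) (b : Bool) (r : ℤ) (h : NT t) :
    ∃ ζ : ZV, Φ (h * ge t i b (r : ℝ)) = Φ h * ⟨(r : ℝ) • σ i b, ζ⟩ ∧
      ‖ζ‖ ≤ |(r : ℝ)| * ((3 + |s|) * K ^ 2) := by
  obtain ⟨n, rfl | rfl⟩ := r.eq_nat_or_neg
  · obtain ⟨ζ, h1, h2⟩ := img_nat hT σ hσ i b n h
    refine ⟨ζ, ?_, ?_⟩
    · push_cast
      exact h1
    · push_cast
      rw [abs_of_nonneg (Nat.cast_nonneg n)]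
      exact h2
  · obtain ⟨ζ, h1, h2⟩ := img_nat hT σ hσ i b n (h * ge t i b (-(n : ℝ)))
    refine ⟨-ζ, ?_, ?_⟩
    · have e1 : h * ge t i b (-(n : ℝ)) * ge t i b (n : ℝ) = h := by
        rw [mul_assoc, ge_mul]
        simp
      rw [e1] at h1
      have e2 : (⟨((-(n : ℤ) : ℤ) : ℝ) • σ i b, -ζ⟩ : NT s) = (⟨(n : ℝ) • σ i b, ζ⟩ : NT s)⁻¹ := by
        refine ext' ?_ ?_
        · simp
        · simp
      push_cast at e2 ⊢
      rw [e2, h1, mul_inv_cancel_right]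
    · rw [norm_neg]
      push_cast
      rw [abs_neg, abs_of_nonneg (Nat.cast_nonneg n)]
      exact h2

theorem comm_form (s : ℝ) (u w : HV) (p q : ℝ) (z1 z2 z3 z4 : ZV) :
    (⟨p • u, z1⟩ : NT s) * ⟨q • w, z2⟩ * ⟨(-p) • u, z3⟩ * ⟨(-q) • w, z4⟩
      = ⟨0, (p * q) • om s u w + (z1 + z2 + z3 + z4)⟩ := by
  refine ext' ?_ ?_
  · simp only [mul_v]
    simp only [neg_smul]
    abel
  · simp only [mul_z, mul_v, om_add_left, om_smul_left, om_smul_right, om_self, smul_zero]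
    rw [om_swap u w]
    ext <;> simp <;> ring

end com

theorem t_COM : S_COM := by
  intro t s Φ K hT σ hσ
  have hb := bt_pos s
  refine ⟨2 * ((3 + |s|) * K ^ 2), by positivity, ?_⟩
  intro h i b j b' p q
  obtain ⟨z1, e1, n1⟩ := img_int hT σ hσ i b p h
  obtain ⟨z2, e2, n2⟩ := img_int hT σ hσ j b' q (h * ge t i b (p : ℝ))
  obtain ⟨z3, e3, n3⟩ := img_int hT σ hσ i b (-p) (h * ge t i b (p : ℝ) * ge t j b' (q : ℝ))
  obtain ⟨z4, e4, n4⟩ := img_int hT σ hσ j b' (-q)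
    (h * ge t i b (p : ℝ) * ge t j b' (q : ℝ) * ge t i b ((-p : ℤ) : ℝ))
  have hc : h * ⟨0, ((p : ℝ) * (q : ℝ)) • om t (ev i b) (ev j b')⟩
      = h * ge t i b (p : ℝ) * ge t j b' (q : ℝ) * ge t i b ((-p : ℤ) : ℝ)
        * ge t j b' ((-q : ℤ) : ℝ) := by
    have := comm_form t (ev i b) (ev j b') (p : ℝ) (q : ℝ) 0 0 0 0
    simp only [add_zero] at this
    rw [← this]
    simp only [mul_assoc]
    push_cast
    rfl
  refine ⟨((p : ℝ) * (q : ℝ)) • om s (σ i b) (σ j b') + (z1 + z2 + z3 + z4), ?_, ?_⟩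
  · rw [hc, e4, e3, e2, e1]
    have := comm_form s (σ i b) (σ j b') (p : ℝ) (q : ℝ) z1 z2 z3 z4
    rw [← this]
    simp only [mul_assoc]
    push_cast
    rfl
  · rw [add_sub_cancel_left]
    push_cast at n3 n4
    rw [abs_neg] at n3 n4
    have m1 := norm_add_le (z1 + z2 + z3) z4
    have m2 := norm_add_le (z1 + z2) z3
    have m3 := norm_add_le z1 z2
    nlinarith

end Pool.Agent.Y899.CT
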